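import Mathlib
import Pool.Agent.H.MP_99e7cc_gt.C

namespace Pool.Agent.Results.MP_99e7cc_gt.Kerdock

open Finset Pool.Agent.H.MP_99e7cc_gt
open scoped RealInnerProductSpace Pointwise

/-- Euclidean space. -/
abbrev E (n : ℕ) := EuclideanSpace ℝ (Fin n)

/-- A finite Minkowski sum of segments. -/
def IsZonotope {n : ℕ} (Z : Set (E n)) : Prop :=
  ∃ (m : ℕ) (a b : Fin m → E n), Z = ∑ i, segment ℝ (a i) (b i)

/-- A compact set which is a Hausdorff limit of zonotopes. -/
def IsZonoid {n : ℕ} (Z : Set (E n)) : Prop :=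
  IsCompact Z ∧ ∀ ε : ℝ, 0 < ε →
    ∃ P : Set (E n), IsZonotope P ∧ Metric.hausdorffEDist Z P < ENNReal.ofReal ε

/-- Origin-symmetric convex body. -/
def SymBody {n : ℕ} (K : Set (E n)) : Prop :=
  IsCompact K ∧ Convex ℝ K ∧ (interior K).Nonempty ∧ K = -K

/-- The zonoid approximation constant. -/
noncomputable def lam {n : ℕ} (K : Set (E n)) : ℝ :=
  sInf {l : ℝ | 1 ≤ l ∧ ∃ Z : Set (E n), IsZonoid Z ∧ K ⊆ Z ∧ Z ⊆ l • K}

/-- The cross-polytope. -/
def cross (n : ℕ) : Set (E n) :=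
  convexHull ℝ {x | ∃ i : Fin n, x = EuclideanSpace.single i 1 ∨ x = -EuclideanSpace.single i 1}

theorem zono {n : ℕ} {ι : Type*} [Fintype ι] (a b : ι → E n) :
    IsZonoid (∑ i, segment ℝ (a i) (b i)) := by
  refine ⟨Finset.sum_induction _ IsCompact (fun _ _ => IsCompact.add) isCompact_singleton
    fun i _ => ?_, fun ε hε => ⟨_, ⟨_, fun j => a ((Fintype.equivFin ι).symm j),
      fun j => b ((Fintype.equivFin ι).symm j),
      ((Fintype.equivFin ι).symm.sum_comp fun i => segment ℝ (a i) (b i)).symm⟩, ?_⟩⟩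
  · rw [← convexHull_pair]
    exact (Set.toFinite _).isCompact_convexHull ℝ
  · rw [Metric.hausdorffEDist_self]
    exact ENNReal.ofReal_pos.2 hε

theorem seg_le {n : ℕ} {a b x y : E n} (p : E n) (hx : x ∈ segment ℝ a b)
    (hy : y ∈ segment ℝ a b) : ⟪p, x - y⟫ ≤ |⟪p, b - a⟫| := by
  rw [segment_eq_image'] at hx hy
  obtain ⟨s, ⟨s0, s1⟩, rfl⟩ := hx
  obtain ⟨t, ⟨t0, t1⟩, rfl⟩ := hy
  have : a + s • (b - a) - (a + t • (b - a)) = (s - t) • (b - a) := by module
  simp only [this, real_inner_smul_right]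
  rcases abs_cases ⟪p, b - a⟫ with h | h <;> nlinarith [h.1, h.2]

theorem width_le {n m : ℕ} (a b : Fin m → E n) (p : E n) {x y : E n}
    (hx : x ∈ ∑ i, segment ℝ (a i) (b i)) (hy : y ∈ ∑ i, segment ℝ (a i) (b i)) :
    ⟪p, x - y⟫ ≤ ∑ i, |⟪p, b i - a i⟫| := by
  obtain ⟨g, hg, rfl⟩ := (Set.mem_fintype_sum _ _).1 hx
  obtain ⟨g', hg', rfl⟩ := (Set.mem_fintype_sum _ _).1 hy
  rw [← sum_sub_distrib, inner_sum]
  exact sum_le_sum fun i _ => seg_le p (hg i) (hg' i)

theorem width_eq {n m : ℕ} (a b : Fin m → E n) (p : E n) :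
    ∃ x ∈ ∑ i, segment ℝ (a i) (b i), ∃ y ∈ ∑ i, segment ℝ (a i) (b i),
      ⟪p, x - y⟫ = ∑ i, |⟪p, b i - a i⟫| := by
  refine ⟨_, (Set.mem_fintype_sum _ _).2 ⟨fun i => if 0 ≤ ⟪p, b i - a i⟫ then b i else a i,
    fun i => ?_, rfl⟩, _, (Set.mem_fintype_sum _ _).2
      ⟨fun i => if 0 ≤ ⟪p, b i - a i⟫ then a i else b i, fun i => ?_, rfl⟩, ?_⟩
  · beta_reduce; split_ifs; exacts [right_mem_segment _ _ _, left_mem_segment _ _ _]
  · beta_reduce; split_ifs; exacts [left_mem_segment _ _ _, right_mem_segment _ _ _]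
  · rw [← sum_sub_distrib, inner_sum]
    refine sum_congr rfl fun i _ => ?_
    split_ifs with h
    · rw [abs_of_nonneg h]
    · rw [abs_of_neg (not_le.1 h), ← inner_neg_right, neg_sub]

theorem near {n : ℕ} {p x x' y y' : E n} {ε : ℝ} (hp : ‖p‖ = 1)
    (hx : edist x x' < ENNReal.ofReal ε) (hy : edist y y' < ENNReal.ofReal ε) :
    ⟪p, x - y⟫ ≤ ⟪p, x' - y'⟫ + 2 * ε := by
  rw [edist_lt_ofReal, dist_eq_norm] at hx hy
  have h1 := real_inner_le_norm p (x - x')
  have h2 := real_inner_le_norm p (y' - y)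
  rw [norm_sub_rev y' y] at h2
  rw [hp, one_mul] at h1 h2
  simp only [inner_sub_right] at h1 h2 ⊢
  linarith

theorem lower {n N : ℕ} (v : Fin N → E n) (e : Fin N → Bool) {δ η l : ℝ} (hN : 0 < N)
    (he : 0 ≤ ∑ i, sg (e i)) (hv : ∀ i, ‖v i‖ = 1) (hδ : 0 < δ) (η0 : 0 ≤ η) (η1 : η ≤ 1)
    (hk : ∀ y, ∑ i, sg (e i) * |⟪v i, y⟫| ≤ η * ∑ i, |⟪v i, y⟫|) {K Z : Set (E n)}
    (h1 : ∀ i, e i = true → v i ∈ K ∧ -v i ∈ K)
    (h2 : ∀ i, e i = false → ∀ x ∈ K, |⟪v i, x⟫| ≤ δ) (hl : 0 ≤ l)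
    (hZ : IsZonoid Z) (hKZ : K ⊆ Z) (hZK : Z ⊆ l • K) : 1 - η ≤ (1 + η) * (l * δ) := by
  refine le_of_forall_pos_le_add fun ε' hε' => ?_
  obtain ⟨ε, hε, ε1, ε2⟩ : ∃ ε : ℝ, 0 < ε ∧ ε ≤ 1 ∧ 2 * ε ≤ ε' :=
    ⟨min 1 (ε' / 2), by positivity, min_le_left _ _, by linarith [min_le_right 1 (ε' / 2)]⟩
  obtain ⟨P, ⟨m, a, b, rfl⟩, hP⟩ := hZ.2 ε hε
  have hP' := hP
  rw [Metric.hausdorffEDist_comm] at hP'
  set w : Fin N → ℝ := fun i => ∑ j, |⟪v i, b j - a j⟫| with hw
  have k1 : ∑ i, (sg (e i) - η) * w i ≤ 0 := by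
    simp only [hw, mul_sum]
    rw [sum_comm]
    refine sum_nonpos fun j _ => ?_
    have := hk (b j - a j)
    simp only [sub_mul, sum_sub_distrib, ← mul_sum]
    linarith
  set α := (1 - η) * (2 - 2 * ε)
  set β := (1 + η) * (2 * (l * δ) + 2 * ε)
  have k2 : ∀ i, (α - β) / 2 + (α + β) / 2 * sg (e i) ≤ (sg (e i) - η) * w i := by
    intro i
    cases h : e i
    · obtain ⟨x, hx, y, hy, hxy⟩ := width_eq a b (v i)
      obtain ⟨x', hx', dx⟩ := Metric.exists_edist_lt_of_hausdorffEDist_lt hx hP'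
      obtain ⟨y', hy', dy⟩ := Metric.exists_edist_lt_of_hausdorffEDist_lt hy hP'
      have := near (hv i) dx dy
      obtain ⟨x, hx, rfl⟩ := hZK hx'
      obtain ⟨y, hy, rfl⟩ := hZK hy'
      have e1 := mul_le_mul_of_nonneg_left (abs_le.1 (h2 i h x hx)).2 hl
      have e2 := mul_le_mul_of_nonneg_left (abs_le.1 (h2 i h y hy)).1 hl
      rw [hxy, inner_sub_right (v i) (l • x)] at this
      simp only [real_inner_smul_right] at this
      have e3 : w i ≤ 2 * (l * δ) + 2 * ε := by simp only [hw]; linarith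
      have := mul_le_mul_of_nonneg_left e3 (show 0 ≤ 1 + η by linarith)
      simp only [sg, Bool.false_eq_true, if_false, β]
      linarith
    · obtain ⟨x, hx, dx⟩ := Metric.exists_edist_lt_of_hausdorffEDist_lt (hKZ (h1 i h).1) hP
      obtain ⟨y, hy, dy⟩ := Metric.exists_edist_lt_of_hausdorffEDist_lt (hKZ (h1 i h).2) hP
      have := (near (hv i) dx dy).trans (add_le_add_left (width_le a b (v i) hx hy) _)
      rw [sub_neg_eq_add, inner_add_right, real_inner_self_eq_norm_sq, hv] at this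
      have e3 : 2 - 2 * ε ≤ w i := by simp only [hw]; linarith
      have := mul_le_mul_of_nonneg_left e3 (show 0 ≤ 1 - η by linarith)
      simp only [sg, if_true, α]
      linarith
  have k3 := (sum_le_sum fun i (_ : i ∈ univ) => k2 i).trans k1
  rw [sum_add_distrib, ← mul_sum, sum_const, card_univ, Fintype.card_fin, nsmul_eq_mul] at k3
  have a0 : 0 ≤ α := mul_nonneg (by linarith) (by linarith)
  have b0 : 0 ≤ β := by positivity
  have k4 : 0 ≤ (α + β) / 2 * ∑ i, sg (e i) := by positivity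
  have N0 : (0 : ℝ) < N := by exact_mod_cast hN
  have k5 : α ≤ β := by
    by_contra! hc
    have := mul_pos N0 (show 0 < (α - β) / 2 by linarith)
    linarith
  simp only [α, β] at k5
  nlinarith

theorem cube {n : ℕ} : ∃ Z : Set (E n), IsZonoid Z ∧ (∀ x : E n, ‖x‖ ≤ 1 → x ∈ Z) ∧
    ∀ x ∈ Z, ‖x‖ ≤ n := by
  refine ⟨_, zono (fun i : Fin n => -EuclideanSpace.single i 1)
    fun i => EuclideanSpace.single i 1, fun x hx => ?_, fun x hx => ?_⟩
  · refine (Set.mem_fintype_sum _ _).2 ⟨fun i => x i • EuclideanSpace.single i 1, fun i => ?_, ?_⟩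
    · have := abs_le.1 ((PiLp.norm_apply_le x i).trans hx)
      exact ⟨(1 - x i) / 2, (1 + x i) / 2, by linarith, by linarith, by ring, by module⟩
    · ext j; simp [Pi.single_apply]
  · obtain ⟨g, hg, rfl⟩ := (Set.mem_fintype_sum _ _).1 hx
    refine (norm_sum_le _ _).trans ((sum_le_sum fun i _ => (?_ : ‖g i‖ ≤ 1)).trans (by simp))
    have : segment ℝ (-EuclideanSpace.single i (1 : ℝ)) (EuclideanSpace.single i 1) ⊆
        Metric.closedBall (0 : E n) 1 :=
      (convex_closedBall _ _).segment_subset (by simp) (by simp)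
    simpa using this (hg i)

theorem big (k : ℕ) : ∃ K : Set (E (4 ^ (k + 1))), SymBody K ∧ 2 ^ (k + 1) - 11 ≤ lam K := by
  obtain ⟨N, v, e, hN, he, hv, hc, hk⟩ := key k
  obtain ⟨r, hr⟩ : ∃ r : ℝ, r = 2 ^ (k + 1) := ⟨_, rfl⟩
  have r1 : 1 ≤ r := by rw [hr]; exact one_le_pow₀ one_le_two
  rw [← hr] at hc hk ⊢
  have r0 : 0 < r := by linarith
  have d1 : 1 / r ≤ 1 := by rw [div_le_one r0]; exact r1
  let K : Set (E (4 ^ (k + 1))) := {x | ‖x‖ ≤ 1 ∧ ∀ i, e i = false → |⟪v i, x⟫| ≤ 1 / r}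
  have hb : ∀ x : E (4 ^ (k + 1)), ‖x‖ ≤ 1 / r → x ∈ K := fun x hx =>
    ⟨hx.trans d1, fun i _ => (abs_real_inner_le_norm _ _).trans (by rwa [hv, one_mul])⟩
  have hneg : ∀ x ∈ K, -x ∈ K := fun x hx =>
    ⟨by simpa using hx.1, fun i hi => by simpa using hx.2 i hi⟩
  refine ⟨K, ⟨?_, ?_, ⟨0, ?_⟩, ?_⟩, le_csInf ?_ ?_⟩
  · refine (isCompact_closedBall (0 : E (4 ^ (k + 1))) 1).of_isClosed_subset ?_
      fun x hx => by simpa using hx.1
    refine (isClosed_le continuous_norm continuous_const).inter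
      (?_ : IsClosed {x | ∀ i, e i = false → |⟪v i, x⟫| ≤ 1 / r})
    simp only [Set.ofPred_forall]
    exact isClosed_iInter fun i => isClosed_iInter fun _ =>
      isClosed_le (by fun_prop) continuous_const
  · intro x hx y hy a b ha hb hab
    refine ⟨?_, fun i hi => ?_⟩
    · have := convex_closedBall (0 : E (4 ^ (k + 1))) 1 (by simpa using hx.1)
        (by simpa using hy.1) ha hb hab
      simpa using this
    · rw [inner_add_right, real_inner_smul_right, real_inner_smul_right]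
      refine (abs_add_le _ _).trans ?_
      rw [abs_mul, abs_mul, abs_of_nonneg ha, abs_of_nonneg hb]
      have := mul_le_mul_of_nonneg_left (hx.2 i hi) ha
      have := mul_le_mul_of_nonneg_left (hy.2 i hi) hb
      have : a * (1 / r) + b * (1 / r) = 1 / r := by rw [← add_mul, hab, one_mul]
      linarith
  · refine mem_interior_iff_mem_nhds.2 (Filter.mem_of_superset
      (Metric.closedBall_mem_nhds 0 (show 0 < 1 / r by positivity)) fun x hx => hb x ?_)
    simpa using hx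
  · ext x
    exact ⟨fun hx => hneg x hx, fun hx => by simpa using hneg _ hx⟩
  · obtain ⟨Z, hZ, z1, z2⟩ := cube (n := 4 ^ (k + 1))
    have n1 : (1 : ℝ) ≤ (4 ^ (k + 1) : ℕ) := by exact_mod_cast Nat.one_le_pow _ _ (by norm_num)
    generalize ((4 ^ (k + 1) : ℕ) : ℝ) = c at z2 n1
    have c0 : 0 < c * r := by positivity
    refine ⟨c * r, by nlinarith, Z, hZ, fun x hx => z1 x hx.1, fun x hx => ?_⟩
    refine (Set.mem_smul_set_iff_inv_smul_mem₀ c0.ne' _ _).2 (hb _ ?_)
    rw [norm_smul, norm_inv, Real.norm_of_nonneg c0.le, inv_mul_le_iff₀ c0]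
    refine (z2 x hx).trans_eq ?_
    field_simp
  · rintro l ⟨l1, Z, hZ, z1, z2⟩
    by_cases h6 : r ≤ 12
    · linarith
    have := lower v e hN he hv (show 0 < 1 / r by positivity) (by positivity)
      (by rw [div_le_one (by positivity)]; linarith) hk (K := K) (fun i hi => ?_)
      (fun i hi x hx => hx.2 i hi) (by linarith) hZ z1 z2
    · by_contra! hlt
      have e1 : (1 - 16 / (3 * r)) * r = r - 16 / 3 := by field_simp
      have e2 : (1 + 16 / (3 * r)) * (l * (1 / r)) * r = l + 16 / 3 * (l / r) := by field_simp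
      have e3 : l / r ≤ 1 := by rw [div_le_one r0]; linarith
      have := mul_le_mul_of_nonneg_right this r0.le
      linarith
    · have : v i ∈ K := ⟨(hv i).le, fun j hj => hc j i fun h => by simp [h, hi] at hj⟩
      exact ⟨this, hneg _ this⟩

theorem mem_cross {n : ℕ} (hn : 0 < n) (x : E n) (hx : ∑ i, |x i| ≤ 1) : x ∈ cross n := by
  have n0 : (0 : ℝ) < n := by exact_mod_cast hn
  set t := (1 - ∑ i, |x i|) / (2 * n) with ht
  have t0 : 0 ≤ t := div_nonneg (by linarith) (by positivity)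
  have := (convex_convexHull ℝ {x : E n | ∃ i : Fin n, x = EuclideanSpace.single i 1 ∨
      x = -EuclideanSpace.single i 1}).sum_mem (t := (univ : Finset (Fin n ⊕ Fin n)))
    (w := Sum.elim (fun i => (|x i| + x i) / 2 + t) fun i => (|x i| - x i) / 2 + t)
    (z := Sum.elim (fun i => EuclideanSpace.single i 1) fun i => -EuclideanSpace.single i 1)
    (by rintro (i | i) _ <;> simp only [Sum.elim_inl, Sum.elim_inr] <;>
          linarith [le_abs_self (x i), neg_abs_le (x i)])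
    (by
      rw [Fintype.sum_sum_type, ← sum_add_distrib]
      have : ∀ i, (|x i| + x i) / 2 + t + ((|x i| - x i) / 2 + t) = |x i| + 2 * t :=
        fun i => by ring
      simp only [Sum.elim_inl, Sum.elim_inr, this]
      simp only [sum_add_distrib, sum_const, card_univ, Fintype.card_fin, nsmul_eq_mul, ht]
      field_simp; ring)
    (by rintro (i | i) _ <;> exact subset_convexHull _ _ ⟨i, by simp⟩)
  unfold cross
  convert this using 1
  rw [Fintype.sum_sum_type, ← sum_add_distrib]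
  have : ∀ i, ((|x i| + x i) / 2 + t) • (EuclideanSpace.single i 1 : E n) +
      ((|x i| - x i) / 2 + t) • (-EuclideanSpace.single i 1 : E n) =
      x i • EuclideanSpace.single i 1 := fun i => by module
  simp only [Sum.elim_inl, Sum.elim_inr, this]
  ext j; simp [Pi.single_apply]

theorem orth {n : ℕ} (i j : Fin n) :
    ∑ e : Fin n → Bool, sg (e i) * sg (e j) = if i = j then 2 ^ n else 0 := by
  split_ifs with h
  · subst h; simp [sg_sq]
  · have := Equiv.sum_comp (Function.Involutive.toPerm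
      (fun e : Fin n → Bool => Function.update e i (!e i)) (fun e => by simp))
      fun e => sg (e i) * sg (e j)
    simp only [Function.Involutive.coe_toPerm, Function.update_self,
      Function.update_of_ne (Ne.symm h), sg_not, neg_mul, sum_neg_distrib] at this
    linarith

theorem small {n : ℕ} (hn : 0 < n) {c : ℝ} (c1 : 1 ≤ c)
    (h : ∀ τ : Fin n → Bool, ∑ e : Fin n → Bool, |∑ i, sg (τ i) * sg (e i)| ≤ c * 2 ^ n) :
    lam (cross n) ≤ c := by
  let g : (Fin n → Bool) → E n := fun e => WithLp.toLp 2 fun i => sg (e i) / 2 ^ n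
  have hs : ∀ (e : Fin n → Bool) (b : Bool), sg b • g e ∈ segment ℝ (-g e) (g e) := by
    intro e b
    cases b
    · simpa [sg] using left_mem_segment ℝ (-g e) (g e)
    · simpa [sg] using right_mem_segment ℝ (-g e) (g e)
  refine csInf_le ⟨1, fun l hl => hl.1⟩ ⟨c1, _, zono (fun e => -g e) g, ?_, fun x hx => ?_⟩
  · refine convexHull_min ?_ (convex_sum _ fun e _ => convex_segment _ _)
    rintro x ⟨i, rfl | rfl⟩
    · refine (Set.mem_fintype_sum _ _).2 ⟨fun e => sg (e i) • g e, fun e => hs e _, ?_⟩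
      ext j
      simp only [g, WithLp.ofLp_sum, Finset.sum_apply, PiLp.smul_apply, smul_eq_mul,
        ← mul_div_assoc, ← sum_div, orth]
      by_cases hij : i = j
      · simp [hij]
      · simp [hij, Ne.symm hij]
    · refine (Set.mem_fintype_sum _ _).2 ⟨fun e => sg (!e i) • g e, fun e => hs e _, ?_⟩
      ext j
      simp only [g, WithLp.ofLp_sum, Finset.sum_apply, PiLp.smul_apply, smul_eq_mul, sg_not,
        neg_mul, sum_neg_distrib, ← mul_div_assoc, ← sum_div, orth]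
      by_cases hij : i = j
      · simp [hij]
      · simp [hij, Ne.symm hij]
  · have c0 : 0 < c := by linarith
    refine (Set.mem_smul_set_iff_inv_smul_mem₀ c0.ne' _ _).2 (mem_cross hn _ ?_)
    simp only [PiLp.smul_apply, smul_eq_mul, abs_mul, abs_inv, abs_of_pos c0, ← mul_sum]
    rw [inv_mul_le_iff₀ c0, mul_one]
    obtain ⟨y, hy, rfl⟩ := (Set.mem_fintype_sum _ _).1 hx
    let τ : Fin n → Bool := fun i => decide (0 ≤ (∑ e, y e) i)
    have e1 : ∀ i, |(∑ e, y e) i| = sg (τ i) * (∑ e, y e) i := by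
      intro i
      by_cases hi : 0 ≤ (∑ e, y e) i
      · rw [abs_of_nonneg hi]; simp only [τ, hi, decide_true, sg, if_true, one_mul]
      · rw [abs_of_neg (not_le.1 hi)]
        simp only [τ, hi, decide_false, sg, Bool.false_eq_true, if_false, neg_mul, one_mul]
    rw [sum_congr rfl fun i _ => e1 i]
    generalize τ = τ
    simp only [WithLp.ofLp_sum, Finset.sum_apply, mul_sum]
    rw [sum_comm]
    have e2 : ∀ e, ∑ i, sg (τ i) * y e i ≤ |∑ i, sg (τ i) * sg (e i)| / 2 ^ n := by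
      intro e
      obtain ⟨a, b, ha, hb, hab, hy⟩ := hy e
      have : ∑ i, sg (τ i) * y e i = (b - a) * ((∑ i, sg (τ i) * sg (e i)) / 2 ^ n) := by
        rw [← hy, sum_div, mul_sum]
        refine sum_congr rfl fun i _ => ?_
        simp only [g, PiLp.add_apply, PiLp.smul_apply, PiLp.neg_apply, smul_eq_mul]
        ring
      rw [this, show |∑ i, sg (τ i) * sg (e i)| / 2 ^ n = |(∑ i, sg (τ i) * sg (e i)) / 2 ^ n| by
        rw [abs_div, abs_of_pos (a := (2 : ℝ) ^ n) (by positivity)]]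
      rcases abs_cases ((∑ i, sg (τ i) * sg (e i)) / 2 ^ n) with h | h <;> nlinarith [h.1, h.2]
    refine (sum_le_sum fun e _ => e2 e).trans ?_
    rw [← sum_div, div_le_iff₀ (by positivity)]
    exact h τ

theorem result :
    (∃ (n : ℕ) (K : Set (E n)), SymBody K ∧ lam (cross n) < lam K) ∧
    ∀ k : ℕ, ∃ K : Set (E (4 ^ (k + 1))), SymBody K ∧ 2 ^ (k + 1) - 11 ≤ lam K := by
  refine ⟨?_, big⟩
  obtain ⟨K, hK, h⟩ := big 5
  refine ⟨_, K, hK, (small (by positivity) (by norm_num) abs_sum_le).trans_lt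
    (lt_of_lt_of_le (by norm_num) h)⟩

end Pool.Agent.Results.MP_99e7cc_gt.Kerdock
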